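import Mathlib
import Pool.Agent.Helper56.RZ.GoalsF
import Pool.Agent.Helper64.RZ.A1

/-! # Packet RZ5-DN5: domination for all times -/

set_option autoImplicit false

open Set Filter Topology

namespace Pool.Agent.Helper13.RZ

open Pool.Agent.Helper56.RZ
open Pool.Agent.Helper64.RZ

section DN5

variable {X : Type} [MetricSpace X] [CompactSpace X] {K : ℕ}

theorem fbound (C : Coc X K) (n : ℕ) : ∃ B : ℝ, 1 ≤ B ∧ ∀ i < n, ∀ x, ‖C.An i x‖ ≤ B := by
  induction n with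
  | zero => exact ⟨1, le_rfl, fun i hi => absurd hi (Nat.not_lt_zero i)⟩
  | succ n ih =>
    obtain ⟨B, hB1, hB⟩ := ih
    obtain ⟨B', hB'⟩ := isCompact_univ.exists_bound_of_continuousOn (An_cont C n).continuousOn
    refine ⟨max B B', le_max_of_le_left hB1, fun i hi x => ?_⟩
    rcases Nat.lt_succ_iff_lt_or_eq.1 hi with h | rfl
    · exact (hB i h x).trans (le_max_left _ _)
    · exact (hB' x (mem_univ _)).trans (le_max_right _ _)

theorem pairb {C : Coc X K} {P : Fin 3 → X → End K} (h : Spl C P) (a b : Fin 3) (i m : ℕ) (x : X)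
    {B B' : ℝ} (hB0 : 0 ≤ B) (hB : ∀ x, ‖C.An i x‖ ≤ B) (hB' : ∀ x, ‖C.inv.An i x‖ ≤ B') :
    ‖C.An (i + m) x * P a x‖ * ‖C.inv.An (i + m) (C.f^[i + m] x) * P b (C.f^[i + m] x)‖ ≤
      B * B' * (‖C.An m x * P a x‖ * ‖C.inv.An m (C.f^[m] x) * P b (C.f^[m] x)‖) := by
  have h1 : ‖C.An (i + m) x * P a x‖ ≤ B * ‖C.An m x * P a x‖ := by
    rw [An_add, mul_assoc]
    exact (norm_mul_le _ _).trans (mul_le_mul_of_nonneg_right (hB _) (norm_nonneg _))
  have hz : C.inv.f^[i] (C.f^[i + m] x) = C.f^[m] x := by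
    rw [Function.iterate_add_apply, f_inv]
  have h2 : ‖C.inv.An (i + m) (C.f^[i + m] x) * P b (C.f^[i + m] x)‖ ≤
      ‖C.inv.An m (C.f^[m] x) * P b (C.f^[m] x)‖ * B' := by
    have e1 : C.inv.An (i + m) (C.f^[i + m] x) =
        C.inv.An m (C.f^[m] x) * C.inv.An i (C.f^[i + m] x) := by
      have := An_add C.inv m i (C.f^[i + m] x)
      rw [hz, Nat.add_comm m i] at this
      exact this
    have e2 : C.inv.An i (C.f^[i + m] x) * P b (C.f^[i + m] x) =
        P b (C.f^[m] x) * C.inv.An i (C.f^[i + m] x) := by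
      have := P_An (spl_inv h) b i (C.f^[i + m] x)
      rw [hz] at this
      exact this
    rw [e1, mul_assoc, e2, ← mul_assoc]
    exact (norm_mul_le _ _).trans (mul_le_mul_of_nonneg_left (hB' _) (norm_nonneg _))
  calc ‖C.An (i + m) x * P a x‖ * ‖C.inv.An (i + m) (C.f^[i + m] x) * P b (C.f^[i + m] x)‖
      ≤ (B * ‖C.An m x * P a x‖) * (‖C.inv.An m (C.f^[m] x) * P b (C.f^[m] x)‖ * B') :=
        mul_le_mul h1 h2 (norm_nonneg _) (mul_nonneg hB0 (norm_nonneg _))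
    _ = _ := by ring

end DN5

/-- **DN5** -/
theorem dn5 : StmtDN → StmtDN5 := by
  intro hDN X _ _ K C P n hS hD
  obtain ⟨q, Cq, hq0, hq1, hCq, hdn⟩ := hDN X K C P n hS hD
  have hn : 1 ≤ n := hD.1
  obtain ⟨B, hB1, hB⟩ := fbound C n
  obtain ⟨B', hB'1, hB'⟩ := fbound C.inv n
  have hn0 : (n : ℝ) ≠ 0 := by
    have : n ≠ 0 := by omega
    exact_mod_cast this
  obtain ⟨l, hl⟩ : ∃ l : ℝ, l = q ^ ((n : ℝ)⁻¹) := ⟨_, rfl⟩
  have hl0 : 0 < l := by
    rw [hl]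
    exact Real.rpow_pos_of_pos hq0 _
  have hl1 : l < 1 := by
    rw [hl]
    have : (0 : ℝ) < n := by exact_mod_cast hn
    exact Real.rpow_lt_one hq0.le hq1 (inv_pos.2 this)
  have hln : l ^ n = q := by
    rw [hl, ← Real.rpow_natCast, ← Real.rpow_mul hq0.le, inv_mul_cancel₀ hn0, Real.rpow_one]
  have hBB : 0 ≤ B * B' := mul_nonneg (by linarith) (by linarith)
  refine ⟨l, max 1 (B * B' * (Cq * q⁻¹)), hl0, hl1, le_max_left _ _, fun k x => ?_⟩
  obtain ⟨i, m, hi, hk⟩ : ∃ i m : ℕ, i < n ∧ k = i + m * n :=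
    ⟨k % n, k / n, Nat.mod_lt _ (by omega), by rw [Nat.mul_comm]; exact (Nat.mod_add_div k n).symm⟩
  have hqm : q ^ m ≤ q⁻¹ * l ^ k := by
    have h1 : q ^ (m + 1) ≤ l ^ k := by
      rw [← hln, ← pow_mul]
      apply pow_le_pow_of_le_one hl0.le hl1.le
      rw [hk, Nat.mul_comm m n, Nat.mul_add, Nat.mul_one]
      omega
    rw [pow_succ] at h1
    rw [inv_mul_eq_div, le_div_iff₀ hq0]
    exact h1
  have key : ∀ a b : Fin 3, a < b →
      ‖C.An k x * P a x‖ * ‖C.inv.An k (C.f^[k] x) * P b (C.f^[k] x)‖ ≤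
        max 1 (B * B' * (Cq * q⁻¹)) * l ^ k := by
    intro a b hab
    rw [hk]
    refine (pairb hS a b i (m * n) x (by linarith) (hB i hi) (hB' i hi)).trans ?_
    rw [← hk]
    calc B * B' * (‖C.An (m * n) x * P a x‖ *
          ‖C.inv.An (m * n) (C.f^[m * n] x) * P b (C.f^[m * n] x)‖)
        ≤ B * B' * (Cq * q ^ m) := mul_le_mul_of_nonneg_left ((hdn m x).2.2 a b hab) hBB
      _ ≤ B * B' * (Cq * (q⁻¹ * l ^ k)) :=
          mul_le_mul_of_nonneg_left (mul_le_mul_of_nonneg_left hqm (by linarith)) hBB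
      _ = B * B' * (Cq * q⁻¹) * l ^ k := by ring
      _ ≤ _ := mul_le_mul_of_nonneg_right (le_max_right _ _) (pow_nonneg hl0.le _)
  unfold DP
  refine max_le (key 0 1 (by decide)) ?_
  rw [mul_comm]
  exact key 1 2 (by decide)

end Pool.Agent.Helper13.RZ
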