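import Mathlib
import Pool.Agent.Helper56.RZ.GoalsD
import Pool.Agent.Helper34.RZ.F1

/-!
Packet RZ3-TA (project of helper56, MP_f32c9c_an): elementary properties of the twist with a
general smooth odd angle function.
-/

set_option autoImplicit false

open Set Filter Topology MeasureTheory
open scoped ContDiff
open Pool.Agent.Helper56.RZ Pool.Agent.Helper34.RZ

namespace Pool.Agent.Helper13.RZ

section
variable {N : ℕ} {p : Fin 3 → End N}

theorem rot_def (d : Tw N p) (s : ℝ) (z : E N) : d.rot s z =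
    z + (Real.cos s - 1) • (d.wc z • d.ec + d.wu z • d.eu) + Real.sin s • d.J z := rfl

theorem wc_rot (hp : Proj3 p) (d : Tw N p) (s : ℝ) (z : E N) :
    d.wc (d.rot s z) = Real.cos s * d.wc z - Real.sin s * d.wu z := by
  simp only [Tw.rot, J_apply, map_add, map_smul, map_sub, d.wcec, wc_eu hp, smul_eq_mul]
  ring

theorem wu_rot (hp : Proj3 p) (d : Tw N p) (s : ℝ) (z : E N) :
    d.wu (d.rot s z) = Real.sin s * d.wc z + Real.cos s * d.wu z := by
  simp only [Tw.rot, J_apply, map_add, map_smul, map_sub, d.wueu, wu_ec hp, smul_eq_mul]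
  ring

theorem R_rot (hp : Proj3 p) (d : Tw N p) (s : ℝ) (z : E N) : d.R (d.rot s z) = d.R z := by
  simp only [Tw.rot, J_apply, map_add, map_smul, map_sub, R_ec hp, R_eu hp, smul_zero, sub_zero,
    add_zero]

theorem q_rot (hp : Proj3 p) (d : Tw N p) (s : ℝ) (z : E N) : d.q (d.rot s z) = d.q z := by
  have h1 : d.q (d.rot s z) =
    (d.wc (d.rot s z)) ^ 2 + (d.wu (d.rot s z)) ^ 2 + ‖d.R (d.rot s z)‖ ^ 2 := rfl
  have h2 : d.q z = (d.wc z) ^ 2 + (d.wu z) ^ 2 + ‖d.R z‖ ^ 2 := rfl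
  rw [h1, wc_rot hp, wu_rot hp, R_rot hp]
  have h3 := Real.sin_sq_add_cos_sq s
  rw [h2]
  linear_combination ((d.wc z) ^ 2 + (d.wu z) ^ 2) * h3

theorem rot_rot (hp : Proj3 p) (d : Tw N p) (s : ℝ) (z : E N) : d.rot (-s) (d.rot s z) = z := by
  have h1 := rot_def d (-s) (d.rot s z)
  rw [h1, J_apply d (d.rot s z), wc_rot hp, wu_rot hp, Real.cos_neg, Real.sin_neg, rot_def,
    J_apply]
  have h3 := Real.sin_sq_add_cos_sq s
  have key : z + (Real.cos s - 1) • (d.wc z • d.ec + d.wu z • d.eu) +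
      Real.sin s • (d.wc z • d.eu - d.wu z • d.ec) +
      (Real.cos s - 1) • ((Real.cos s * d.wc z - Real.sin s * d.wu z) • d.ec +
        (Real.sin s * d.wc z + Real.cos s * d.wu z) • d.eu) +
      -Real.sin s • ((Real.cos s * d.wc z - Real.sin s * d.wu z) • d.eu -
        (Real.sin s * d.wc z + Real.cos s * d.wu z) • d.ec)
      = z + (((Real.sin s ^ 2 + Real.cos s ^ 2) - 1) * d.wc z) • d.ec
        + (((Real.sin s ^ 2 + Real.cos s ^ 2) - 1) * d.wu z) • d.eu := by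
    module
  rw [key, h3]
  simp

theorem rot_zero (d : Tw N p) (z : E N) : d.rot 0 z = z := by
  simp [Tw.rot]

theorem rot_neg (d : Tw N p) (s : ℝ) (z : E N) : d.rot s (-z) = - d.rot s z := by
  rw [rot_def, rot_def]
  simp only [map_neg, neg_smul, smul_neg]
  module

theorem q_neg (d : Tw N p) (z : E N) : d.q (-z) = d.q z := by
  have h1 : d.q (-z) = (d.wc (-z)) ^ 2 + (d.wu (-z)) ^ 2 + ‖d.R (-z)‖ ^ 2 := rfl
  have h2 : d.q z = (d.wc z) ^ 2 + (d.wu z) ^ 2 + ‖d.R z‖ ^ 2 := rfl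
  rw [h1, h2]
  simp only [map_neg, neg_sq, norm_neg]

theorem Ha_contDiff (d : Tw N p) {a : ℝ → ℝ} (ha : ContDiff ℝ ∞ a) :
    ContDiff ℝ ∞ (fun x : ℝ × E N => d.Ha a x.1 x.2) := by
  have hphi0 : ContDiff ℝ ∞ (fun x : ℝ × E N => x.1 * Tw.be (d.q x.2)) :=
    contDiff_fst.mul ((be_contDiff.comp (q_contDiff d)).comp contDiff_snd)
  have hphi : ContDiff ℝ ∞ (fun x : ℝ × E N => a (x.1 * Tw.be (d.q x.2))) := ha.comp hphi0
  have hcos : ContDiff ℝ ∞ (fun x : ℝ × E N => Real.cos (a (x.1 * Tw.be (d.q x.2))) - 1) :=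
    (Real.contDiff_cos.comp hphi).sub contDiff_const
  have hsin : ContDiff ℝ ∞ (fun x : ℝ × E N => Real.sin (a (x.1 * Tw.be (d.q x.2)))) :=
    Real.contDiff_sin.comp hphi
  have hw : ContDiff ℝ ∞ (fun x : ℝ × E N => d.wc x.2 • d.ec + d.wu x.2 • d.eu) :=
    ((d.wc.contDiff.comp contDiff_snd).smul contDiff_const).add
      ((d.wu.contDiff.comp contDiff_snd).smul contDiff_const)
  have hJ : ContDiff ℝ ∞ (fun x : ℝ × E N => d.J x.2) := d.J.contDiff.comp contDiff_snd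
  exact (contDiff_snd.add (hcos.smul hw)).add (hsin.smul hJ)

end

theorem ta : StmtTA := by
  intro N p hp d a ha
  have ha0 : a 0 = 0 := by
    have h := ha.odd 0
    rw [neg_zero] at h
    linarith
  refine ⟨Ha_contDiff d ha.smooth, ?_, ?_, ?_, ?_, ?_, q_neg d⟩
  · intro t z
    exact q_rot hp d _ z
  · intro t z
    have h1 : d.Ha a (-t) (d.Ha a t z) =
      d.rot (a (-t * Tw.be (d.q (d.Ha a t z)))) (d.Ha a t z) := rfl
    have h2 : d.q (d.Ha a t z) = d.q z := q_rot hp d _ z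
    rw [h1, h2, neg_mul, ha.odd]
    exact rot_rot hp d _ z
  · intro z
    have h1 : d.Ha a 0 z = d.rot (a (0 * Tw.be (d.q z))) z := rfl
    rw [h1, zero_mul, ha0, rot_zero]
  · intro t z hz
    have h0 : Tw.be (d.q z) = 0 := Real.smoothTransition.zero_of_nonpos (by linarith)
    have h1 : d.Ha a t z = d.rot (a (t * Tw.be (d.q z))) z := rfl
    rw [h1, h0, mul_zero, ha0, rot_zero]
  · intro t z
    have h1 : d.Ha a t (-z) = d.rot (a (t * Tw.be (d.q (-z)))) (-z) := rfl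
    have h2 : d.Ha a t z = d.rot (a (t * Tw.be (d.q z))) z := rfl
    rw [h1, h2, q_neg, rot_neg]

end Pool.Agent.Helper13.RZ
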